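import Pool.Agent.H61.KU.TB

/-!
# Module LFT: lifting through the embedding
-/

set_option autoImplicit false

open Topology Set
open Pool.Agent.H59 Pool.Agent.H64.LB Pool.Agent.H61.KU

namespace Pool.Agent.H42.KU

theorem pf_lft (hP : T_PNT) : T_LFT := by
  intro f hf T _ φ hφ
  obtain ⟨hc, h2⟩ := hP 2
  have hcl : IsClosedEmbedding f := f.continuous.isClosedEmbedding hf
  choose g hg using hφ
  refine ⟨⟨g, ?_⟩, hg⟩
  rw [hcl.isEmbedding.continuous_iff]
  have h : (fun t => f (g t)) = φ := funext hg
  change Continuous (fun t => f (g t))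
  rw [h]
  exact φ.continuous

end Pool.Agent.H42.KU
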